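import Mathlib

set_option autoImplicit false

/-!
# Sylow subgroups of subgroups
-/

set_option linter.unusedSectionVars false
set_option linter.style.haveILetI false

open scoped Pointwise

namespace Pool.Agent.U685.CE

variable {G : Type} [Group G] [Finite G] {p : ℕ} [Fact p.Prime]

/-- `T` is a Sylow `p`-subgroup of the subgroup `K`. -/
structure IsSyl (p : ℕ) (K T : Subgroup G) : Prop where
  le : T ≤ K
  pgroup : IsPGroup p T
  index : ¬ p ∣ T.relIndex K

lemma IsSyl.conj {K T : Subgroup G} (h : IsSyl p K T) {Q : Subgroup G} (hQ : Q ≤ K)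
    (hp : IsPGroup p Q) : ∃ k ∈ K, ∀ q ∈ Q, k * q * k⁻¹ ∈ T := by
  have hT' : IsPGroup p (T.subgroupOf K) := h.pgroup.comap_subtype
  have hQ' : IsPGroup p (Q.subgroupOf K) := hp.comap_subtype
  obtain ⟨R, hR⟩ := hQ'.exists_le_sylow
  let T' : Sylow p K := hT'.toSylow h.index
  obtain ⟨k, hk⟩ := MulAction.exists_smul_eq K R T'
  refine ⟨k, k.2, fun q hq => ?_⟩
  have h1 : (⟨q, hQ hq⟩ : K) ∈ Q.subgroupOf K := by
    rw [Subgroup.mem_subgroupOf]; exact hq
  have h2 : k * ⟨q, hQ hq⟩ * k⁻¹ ∈ ((k • R : Sylow p K) : Subgroup K) := by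
    have h3 : (MulAut.conj k) • (⟨q, hQ hq⟩ : K) ∈ (MulAut.conj k) • (R : Subgroup K) :=
      Subgroup.smul_mem_pointwise_smul _ _ _ (hR h1)
    rw [Sylow.coe_subgroup_smul]
    simpa using h3
  rw [hk] at h2
  have h4 : k * ⟨q, hQ hq⟩ * k⁻¹ ∈ T.subgroupOf K := h2
  rw [Subgroup.mem_subgroupOf] at h4
  exact h4

lemma IsSyl.exists_ge {K Q : Subgroup G} (hQ : Q ≤ K) (hp : IsPGroup p Q) :
    ∃ R : Subgroup G, Q ≤ R ∧ IsSyl p K R := by
  have hQ' : IsPGroup p (Q.subgroupOf K) := hp.comap_subtype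
  obtain ⟨R, hR⟩ := hQ'.exists_le_sylow
  refine ⟨(R : Subgroup K).map K.subtype, ?_, ?_, ?_, ?_⟩
  · intro q hq
    exact ⟨⟨q, hQ hq⟩, hR (by
      rw [Subgroup.mem_subgroupOf]; exact hq), rfl⟩
  · rintro _ ⟨y, -, rfl⟩
    exact y.2
  · exact R.2.map _
  · have h1 : ((R : Subgroup K).map K.subtype).subgroupOf K = R := by
      rw [Subgroup.subgroupOf, Subgroup.comap_map_eq_self_of_injective K.subtype_injective]
    rw [Subgroup.relIndex, h1]
    exact R.not_dvd_index

/-- A `p`-subgroup of `K` has at most as many elements as a Sylow `p`-subgroup. -/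
lemma IsSyl.card_le {K T : Subgroup G} (h : IsSyl p K T) {Q : Subgroup G} (hQ : Q ≤ K)
    (hp : IsPGroup p Q) : Nat.card Q ≤ Nat.card T := by
  obtain ⟨k, -, hk⟩ := h.conj hQ hp
  apply Nat.card_le_card_of_injective (fun q : Q => (⟨k * q * k⁻¹, hk q q.2⟩ : T))
  intro a b hab
  have := congrArg Subtype.val hab
  simpa using this

lemma IsSyl.of_card {K T Q : Subgroup G} (h : IsSyl p K T) (hQ : Q ≤ K) (hp : IsPGroup p Q)
    (hc : Nat.card T ≤ Nat.card Q) : IsSyl p K Q := by
  obtain ⟨R, hR1, hR2⟩ := IsSyl.exists_ge hQ hp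
  have h1 : Nat.card R ≤ Nat.card T := h.card_le hR2.le hR2.pgroup
  have h2 : Q = R := Subgroup.eq_of_le_of_card_ge hR1 (h1.trans hc)
  rwa [h2]

lemma isPGroup_conj {T : Subgroup G} (hT : IsPGroup p T) (g : G) :
    IsPGroup p (T.map (MulAut.conj g).toMonoidHom) := hT.map _

lemma mem_map_conj {T : Subgroup G} {g y : G} :
    y ∈ T.map (MulAut.conj g).toMonoidHom ↔ g⁻¹ * y * g ∈ T := by
  constructor
  · rintro ⟨z, hz, rfl⟩
    simpa [mul_assoc] using hz
  · intro h
    exact ⟨_, h, by simp [mul_assoc]⟩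

lemma card_map_conj (T : Subgroup G) (g : G) :
    Nat.card (T.map (MulAut.conj g).toMonoidHom) = Nat.card T :=
  (Nat.card_congr (T.equivMapOfInjective _ (MulAut.conj g).injective).toEquiv).symm

/-- Conjugates of Sylow subgroups. -/
lemma IsSyl.map_conj {K T : Subgroup G} (h : IsSyl p K T) {g : G}
    (hK : T.map (MulAut.conj g).toMonoidHom ≤ K) :
    IsSyl p K (T.map (MulAut.conj g).toMonoidHom) :=
  h.of_card hK (isPGroup_conj h.pgroup g) (card_map_conj T g).ge

/-- A Sylow subgroup of `K` is a Sylow subgroup of each intermediate subgroup. -/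
lemma IsSyl.mono {K K' T : Subgroup G} (h : IsSyl p K T) (h1 : T ≤ K') (h2 : K' ≤ K) :
    IsSyl p K' T := by
  obtain ⟨R, hR1, hR2⟩ := IsSyl.exists_ge (p := p) h1 h.pgroup
  have h3 := h.card_le (hR2.le.trans h2) hR2.pgroup
  have h4 : T = R := Subgroup.eq_of_le_of_card_ge hR1 h3
  rwa [h4]

/-- `S ⊓ H` is a Sylow subgroup of the normal subgroup `H`. -/
lemma isSyl_inf (S : Sylow p G) (H : Subgroup G) [hH : H.Normal] :
    IsSyl p H ((S : Subgroup G) ⊓ H) := by
  have hp : IsPGroup p ((S : Subgroup G) ⊓ H : Subgroup G) := S.2.to_le inf_le_left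
  obtain ⟨R, hR1, hR2⟩ := IsSyl.exists_ge (p := p) (K := H) inf_le_right hp
  obtain ⟨S', hS'⟩ := hR2.pgroup.exists_le_sylow
  obtain ⟨g, hg⟩ := MulAction.exists_smul_eq G S' S
  have h1 : ∀ y ∈ R, g * y * g⁻¹ ∈ (S : Subgroup G) ⊓ H := by
    intro y hy
    refine ⟨?_, hH.conj_mem y (hR2.le hy) g⟩
    have h3 : (MulAut.conj g) • y ∈ (MulAut.conj g) • (S' : Subgroup G) :=
      Subgroup.smul_mem_pointwise_smul _ _ _ (hS' hy)
    have h4 : g * y * g⁻¹ ∈ ((g • S' : Sylow p G) : Subgroup G) := by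
      rw [Sylow.coe_subgroup_smul]
      simpa using h3
    rw [hg] at h4
    exact h4
  have h2 : Nat.card R ≤ Nat.card ((S : Subgroup G) ⊓ H : Subgroup G) := by
    apply Nat.card_le_card_of_injective
      (fun q : R => (⟨g * q * g⁻¹, h1 q q.2⟩ : ((S : Subgroup G) ⊓ H : Subgroup G)))
    intro a b hab
    have := congrArg Subtype.val hab
    simpa using this
  have h5 := Subgroup.eq_of_le_of_card_ge hR1 h2
  rwa [h5]

/-- Sylow subgroups of a subgroup whose index is not divisible by `p`. -/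
lemma IsSyl.of_relIndex {K K' T : Subgroup G} (h : IsSyl p K' T) (hle : K' ≤ K)
    (hi : ¬ p ∣ K'.relIndex K) : IsSyl p K T := by
  refine ⟨h.le.trans hle, h.pgroup, ?_⟩
  rw [← Subgroup.relIndex_mul_relIndex _ _ _ h.le hle, Nat.Prime.dvd_mul Fact.out]
  push Not
  exact ⟨h.index, hi⟩

/-- The number of conjugates of `x` under `D` and multiplication by a central element. -/
lemma eq_one_of_conj {D R : Subgroup G} {x t c : G} (hR : IsSyl p D R)
    (hRx : ∀ r ∈ R, r * x = x * r) (hD : ∀ d ∈ D, d * t = t * d)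
    (ht : IsPGroup p (Subgroup.zpowers t)) (hc : c ∈ D)
    (hcx : c * x * c⁻¹ = x * t) : t = 1 := by
  classical
  by_contra hne
  -- the conjugation action of `D`
  letI act : MulAction D G := MulAction.compHom G (ConjAct.toConjAct.toMonoidHom.comp D.subtype)
  have hact : ∀ (d : D) (y : G), d • y = (d : G) * y * (d : G)⁻¹ := fun d y => rfl
  set X := MulAction.orbit D x with hX
  have hmul : ∀ a ∈ Subgroup.zpowers t, ∀ y ∈ X, y * a ∈ X := by
    have h1 : ∀ y ∈ X, y * t ∈ X := by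
      rintro _ ⟨d, rfl⟩
      refine ⟨d * ⟨c, hc⟩, ?_⟩
      change (d * ⟨c, hc⟩ : D) • x = (d • x) * t
      rw [hact, hact]
      have h2 := hD d d.2
      have h3 : t * (d : G)⁻¹ = (d : G)⁻¹ * t := by
        rw [eq_inv_mul_iff_mul_eq, ← mul_assoc, h2, mul_inv_cancel_right]
      calc ((d * ⟨c, hc⟩ : D) : G) * x * ((d * ⟨c, hc⟩ : D) : G)⁻¹
          = d * (c * x * c⁻¹) * (d : G)⁻¹ := by
            simp only [Subgroup.coe_mul, mul_inv_rev, mul_assoc]
        _ = d * x * (t * (d : G)⁻¹) := by rw [hcx]; simp only [mul_assoc]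
        _ = d * x * (d : G)⁻¹ * t := by rw [h3]; simp only [mul_assoc]
    have h2 : ∀ n : ℕ, ∀ y ∈ X, y * t ^ n ∈ X := by
      intro n
      induction n with
      | zero => intro y hy; simpa using hy
      | succ n ih => intro y hy; rw [pow_succ, ← mul_assoc]; exact h1 _ (ih y hy)
    intro a ha y hy
    obtain ⟨n, rfl⟩ := mem_powers_iff_mem_zpowers.2 ha
    exact h2 n y hy
  letI act2 : MulAction (Subgroup.zpowers t) X :=
    { smul := fun a y => ⟨y * a, hmul a a.2 y y.2⟩
      one_smul := fun y => Subtype.ext (mul_one _)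
      mul_smul := fun a b y => Subtype.ext (by
        obtain ⟨a, i, rfl⟩ := a
        obtain ⟨b, j, rfl⟩ := b
        change (y : G) * (t ^ i * t ^ j) = (y : G) * t ^ j * t ^ i
        rw [mul_assoc, ← zpow_add, ← zpow_add, add_comm]) }
  have hcard : ¬ p ∣ Nat.card X := by
    intro hdvd
    have h1 : Nat.card X = (MulAction.stabilizer D x).index := by
      rw [MulAction.index_stabilizer, ← Nat.card_coe_set_eq]
    have h2 : R.subgroupOf D ≤ MulAction.stabilizer D x := by
      intro r hr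
      rw [Subgroup.mem_subgroupOf] at hr
      rw [MulAction.mem_stabilizer_iff, hact, hRx _ hr, mul_inv_cancel_right]
    have h3 := Subgroup.index_dvd_of_le h2
    rw [← h1] at h3
    exact hR.index (hdvd.trans h3)
  obtain ⟨y, hy⟩ := ht.nonempty_fixed_point_of_prime_not_dvd_card X hcard
  have h1 := hy ⟨t, Subgroup.mem_zpowers t⟩
  have h2 : (y : G) * t = y := congrArg Subtype.val h1
  exact hne (by simpa using h2)

end Pool.Agent.U685.CE
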