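import Mathlib
import Pool.Agent.U685.CE.Syl

set_option autoImplicit false
set_option linter.unusedSectionVars false

/-!
# Elements of the centralizer of a normal subsystem are isolated
-/

namespace Pool.Agent.U685.CE

variable {G : Type} [Group G] [Finite G] {p : ℕ} [Fact p.Prime]

lemma relIndex_sup_eq (C H : Subgroup G) [H.Normal] : C.relIndex (C ⊔ H) = C.relIndex H := by
  have h1 : H.relIndex (C ⊔ H) = H.relIndex C := Subgroup.relIndex_sup_right _ _
  have h2 := Subgroup.relIndex_mul_relIndex ⊥ C (C ⊔ H) bot_le le_sup_left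
  have h3 := Subgroup.relIndex_mul_relIndex ⊥ H (C ⊔ H) bot_le le_sup_right
  have h4 := Subgroup.relIndex_mul_relIndex ⊥ (C ⊓ H) H bot_le inf_le_right
  have h5 := Subgroup.relIndex_mul_relIndex ⊥ (C ⊓ H) C bot_le inf_le_left
  rw [Subgroup.relIndex_bot_left, Subgroup.relIndex_bot_left] at h2 h3 h4 h5
  rw [Subgroup.inf_relIndex_right] at h4
  rw [Subgroup.inf_relIndex_left] at h5
  have h6 : 0 < Nat.card C := Nat.card_pos
  apply Nat.eq_of_mul_eq_mul_left h6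
  rw [h2, ← h3, h1, ← h4, ← h5]
  ring

lemma mem_cs {x g : G} : g ∈ Subgroup.centralizer ({x} : Set G) ↔ g * x = x * g :=
  Subgroup.mem_centralizer_singleton_iff

/-- `h` can be chosen such that the centralizer in `T` of `t` lies in `h T h⁻¹`. -/
lemma choose_h {H T : Subgroup G} [hH : H.Normal] (hT : IsSyl p H T) {x h t : G}
    (hxT : ∀ t ∈ T, t * x = x * t) (hh : h ∈ H) (hhx : h * x * h⁻¹ = x * t) :
    ∃ h' ∈ H, h' * x * h'⁻¹ = x * t ∧
      ∀ q ∈ T ⊓ Subgroup.centralizer {t}, h'⁻¹ * q * h' ∈ T := by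
  set K := H ⊓ Subgroup.centralizer {x * t} with hK
  have hTh : T.map (MulAut.conj h).toMonoidHom ≤ H := by
    intro y hy
    rw [mem_map_conj] at hy
    have := hH.conj_mem _ (hT.le hy) h
    simpa [mul_assoc] using this
  have h1 : T.map (MulAut.conj h).toMonoidHom ≤ K := by
    intro y hy
    refine Subgroup.mem_inf.2 ⟨hTh hy, mem_cs.2 ?_⟩
    rw [mem_map_conj] at hy
    rw [← hhx]
    have h2 := hxT _ hy
    calc y * (h * x * h⁻¹) = h * ((h⁻¹ * y * h) * x) * h⁻¹ := by group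
      _ = h * (x * (h⁻¹ * y * h)) * h⁻¹ := by rw [h2]
      _ = h * x * h⁻¹ * y := by group
  have h2 : IsSyl p K (T.map (MulAut.conj h).toMonoidHom) :=
    (hT.map_conj hTh).mono h1 inf_le_left
  have h3 : T ⊓ Subgroup.centralizer {t} ≤ K := by
    intro q hq
    obtain ⟨hq1, hq2⟩ := Subgroup.mem_inf.1 hq
    rw [mem_cs] at hq2
    refine Subgroup.mem_inf.2 ⟨hT.le hq1, mem_cs.2 ?_⟩
    rw [← mul_assoc, hxT q hq1, mul_assoc, hq2, mul_assoc]
  obtain ⟨k, hk, hkq⟩ := h2.conj h3 (hT.pgroup.to_le inf_le_left)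
  refine ⟨k⁻¹ * h, H.mul_mem (H.inv_mem (Subgroup.mem_inf.1 hk).1) hh, ?_, ?_⟩
  · have h4 := mem_cs.1 (Subgroup.mem_inf.1 hk).2
    calc k⁻¹ * h * x * (k⁻¹ * h)⁻¹ = k⁻¹ * ((h * x * h⁻¹) * k) := by group
      _ = k⁻¹ * (k * (x * t)) := by rw [hhx, h4]
      _ = x * t := by group
  · intro q hq
    have h5 := hkq q hq
    rw [mem_map_conj] at h5
    have h6 : (k⁻¹ * h)⁻¹ * q * (k⁻¹ * h) = h⁻¹ * (k * q * k⁻¹) * h := by group
    rw [h6]
    exact h5

/-- **Key theorem.** If all `H`-conjugations between subgroups of `T` are induced by elements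
commuting with `x`, then `x` is the only element of its `H`-class in `x T`. -/
theorem isolated_of_ext {H T : Subgroup G} [hH : H.Normal] (hT : IsSyl p H T) {x : G}
    (hxT : ∀ t ∈ T, t * x = x * t)
    (hext : ∀ P : Subgroup G, P ≤ T → ∀ h ∈ H, (∀ y ∈ P, h * y * h⁻¹ ∈ T) →
      ∃ g : G, (∀ y ∈ P, g * y * g⁻¹ = h * y * h⁻¹) ∧ g * x * g⁻¹ = x)
    {h t : G} (hh : h ∈ H) (ht : t ∈ T) (hhx : h * x * h⁻¹ = x * t) : t = 1 := by
  classical
  obtain ⟨h, hh, hhx, hP⟩ := choose_h hT hxT hh hhx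
  set P' := T ⊓ Subgroup.centralizer {t} with hP'
  have hP'T : P' ≤ T := inf_le_left
  -- the element `c`
  obtain ⟨g, hg1, hg2⟩ := hext (P'.map (MulAut.conj h⁻¹).toMonoidHom) (by
    intro y hy
    rw [mem_map_conj, inv_inv] at hy
    have := hP _ hy
    simpa [mul_assoc] using this) h hh (by
    intro y hy
    rw [mem_map_conj, inv_inv] at hy
    exact hP'T hy)
  set c := h * g⁻¹ with hc
  have hcP : ∀ v ∈ P', c * v * c⁻¹ = v := by
    intro v hv
    have h1 := hg1 (h⁻¹ * v * h) (by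
      rw [mem_map_conj]
      have : h⁻¹⁻¹ * (h⁻¹ * v * h) * h⁻¹ = v := by group
      rw [this]; exact hv)
    have h2 : h * (h⁻¹ * v * h) * h⁻¹ = v := by group
    rw [h2] at h1
    have h3 : g⁻¹ * v * g = h⁻¹ * v * h := by
      calc g⁻¹ * v * g = g⁻¹ * (g * (h⁻¹ * v * h) * g⁻¹) * g := by rw [h1]
        _ = h⁻¹ * v * h := by group
    calc c * v * c⁻¹ = h * (g⁻¹ * v * g) * h⁻¹ := by rw [hc]; group
      _ = v := by rw [h3]; group
  have hcx : c * x * c⁻¹ = x * t := by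
    have h3 : g⁻¹ * x * g = x := by
      have : x = g⁻¹ * (g * x * g⁻¹) * g := by group
      rw [hg2] at this
      exact this.symm
    calc c * x * c⁻¹ = h * (g⁻¹ * x * g) * h⁻¹ := by rw [hc]; group
      _ = x * t := by rw [h3, hhx]
  -- the group `G1`
  set C := Subgroup.centralizer ({x} : Set G) with hC
  set G1 := C ⊔ H with hG1
  have hgC : g ∈ C := by
    rw [hC, mem_cs]
    rw [mul_inv_eq_iff_eq_mul] at hg2
    exact hg2
  have hCG1 : C ≤ G1 := le_sup_left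
  have hHG1 : H ≤ G1 := le_sup_right
  have hcG1 : c ∈ G1 := G1.mul_mem (hHG1 hh) (G1.inv_mem (hCG1 hgC))
  have hTC : T ≤ C := by
    intro y hy
    rw [hC, mem_cs]
    exact hxT y hy
  have hCH : ¬ p ∣ C.relIndex H := by
    intro hdvd
    have h1 : C.relIndex H ∣ T.relIndex H := Subgroup.relIndex_dvd_of_le_left H hTC
    exact hT.index (hdvd.trans h1)
  obtain ⟨S1, hTS1, hS1⟩ := IsSyl.exists_ge (p := p) hTC hT.pgroup
  have hS1G : IsSyl p G1 S1 := hS1.of_relIndex le_sup_left (by rw [hG1, relIndex_sup_eq]; exact hCH)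
  have hS1H : S1 ⊓ H = T := by
    have h1 : T ≤ S1 ⊓ H := le_inf hTS1 hT.le
    have h2 := hT.card_le (Q := S1 ⊓ H) inf_le_right (hS1.pgroup.to_le inf_le_left)
    exact (Subgroup.eq_of_le_of_card_ge h1 h2).symm
  -- the group `D`
  set D := G1 ⊓ Subgroup.centralizer (P' : Set G) with hD
  obtain ⟨Q, -, hQ⟩ := IsSyl.exists_ge (p := p) (K := D) (Q := ⊥) bot_le IsPGroup.of_bot
  have hQP : IsPGroup p (Q ⊔ P' : Subgroup G) := by
    apply hQ.pgroup.to_sup_of_normal_right' (hT.pgroup.to_le hP'T)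
    intro q hq
    have h1 := (Subgroup.mem_inf.1 (hQ.le hq)).2
    rw [Subgroup.mem_centralizer_iff] at h1
    rw [Subgroup.mem_normalizer_iff]
    intro v
    constructor
    · intro hv
      have h2 := h1 v hv
      have h3 : q * v * q⁻¹ = v := by rw [← h2]; group
      rw [h3]; exact hv
    · intro hv
      have h2 := h1 _ hv
      have h3 : q * v * q⁻¹ = v := by
        have : (q * v * q⁻¹) * q = q * (q * v * q⁻¹) := h2
        have h4 : q * v = q * (q * v * q⁻¹) := by rw [← this]; group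
        exact (mul_left_cancel h4).symm
      rw [h3] at hv
      exact hv
  have hP'G1 : P' ≤ G1 := hP'T.trans (hTC.trans le_sup_left)
  have hQPG1 : Q ⊔ P' ≤ G1 := sup_le (hQ.le.trans inf_le_left) hP'G1
  obtain ⟨y, hy, hyQ⟩ := hS1G.conj hQPG1 hQP
  have hyP : ∀ v ∈ P', y * v * y⁻¹ ∈ T := by
    intro v hv
    rw [← hS1H]
    exact Subgroup.mem_inf.2 ⟨hyQ v ((le_sup_right : P' ≤ Q ⊔ P') hv),
      hH.conj_mem _ (hT.le (hP'T hv)) y⟩
  obtain ⟨c1, hc1, k1, hk1, rfl⟩ := Subgroup.mem_sup_of_normal_right.1 hy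
  -- conjugate `c1⁻¹ T c1` to `T` in `C_H(x)`
  have hc1' : c1 * x = x * c1 := by
    rw [hC, mem_cs] at hc1
    exact hc1
  have hT1 : T.map (MulAut.conj c1⁻¹).toMonoidHom ≤ H ⊓ C := by
    intro z hz
    rw [mem_map_conj, inv_inv] at hz
    have h1 : z = c1⁻¹ * (c1 * z * c1⁻¹) * c1 := by group
    refine Subgroup.mem_inf.2 ⟨?_, ?_⟩
    · have := hH.conj_mem _ (hT.le hz) c1⁻¹
      rw [inv_inv] at this
      rw [h1]; exact this
    · rw [h1]
      exact C.mul_mem (C.mul_mem (C.inv_mem hc1) (hTC hz)) hc1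
  have hTHC : IsSyl p (H ⊓ C) T := hT.mono (le_inf hT.le hTC) inf_le_left
  obtain ⟨k2, hk2, hk2T⟩ := hTHC.conj hT1 (isPGroup_conj hT.pgroup _)
  obtain ⟨g', hg'1, hg'2⟩ := hext P' hP'T (k2 * k1) (H.mul_mem (Subgroup.mem_inf.1 hk2).1 hk1) (by
    intro v hv
    have h1 := hyP v hv
    have h2 : k1 * v * k1⁻¹ ∈ T.map (MulAut.conj c1⁻¹).toMonoidHom := by
      rw [mem_map_conj, inv_inv]
      have h3 : c1 * (k1 * v * k1⁻¹) * c1⁻¹ = (c1 * k1) * v * (c1 * k1)⁻¹ := by group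
      rw [h3]; exact h1
    have h4 := hk2T _ h2
    have h5 : k2 * k1 * v * (k2 * k1)⁻¹ = k2 * (k1 * v * k1⁻¹) * k2⁻¹ := by group
    rw [h5]; exact h4)
  -- `y' = c1 k2⁻¹ g'` commutes with `x` and agrees with `y = c1 k1` on `P'`
  set y' := c1 * k2⁻¹ * g' with hy'
  have hy'C : y' ∈ C := by
    refine C.mul_mem (C.mul_mem hc1 (C.inv_mem (Subgroup.mem_inf.1 hk2).2)) ?_
    rw [hC, mem_cs]
    rw [mul_inv_eq_iff_eq_mul] at hg'2
    exact hg'2
  have hy'P : ∀ v ∈ P', y' * v * y'⁻¹ = (c1 * k1) * v * (c1 * k1)⁻¹ := by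
    intro v hv
    have h1 := hg'1 v hv
    calc y' * v * y'⁻¹ = c1 * k2⁻¹ * (g' * v * g'⁻¹) * k2 * c1⁻¹ := by rw [hy']; group
      _ = _ := by rw [h1]; group
  -- `R = y'⁻¹ y Q y⁻¹ y'` is a Sylow subgroup of `D` and centralizes `x`
  set z := y'⁻¹ * (c1 * k1) with hz
  have hzP : ∀ v ∈ P', z * v * z⁻¹ = v := by
    intro v hv
    calc z * v * z⁻¹ = y'⁻¹ * ((c1 * k1) * v * (c1 * k1)⁻¹) * y' := by rw [hz]; group
      _ = v := by rw [← hy'P v hv]; group
  have hzD : z ∈ D := by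
    refine Subgroup.mem_inf.2 ⟨G1.mul_mem (G1.inv_mem (hCG1 hy'C)) hy, ?_⟩
    rw [Subgroup.mem_centralizer_iff]
    intro v hv
    have := hzP v hv
    rw [mul_inv_eq_iff_eq_mul] at this
    exact this.symm
  have hRD : Q.map (MulAut.conj z).toMonoidHom ≤ D := by
    intro r hr
    rw [mem_map_conj] at hr
    have h1 : r = z * (z⁻¹ * r * z) * z⁻¹ := by group
    rw [h1]
    exact D.mul_mem (D.mul_mem hzD (hQ.le hr)) (D.inv_mem hzD)
  have hR : IsSyl p D (Q.map (MulAut.conj z).toMonoidHom) := hQ.map_conj hRD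
  have hRx : ∀ r ∈ Q.map (MulAut.conj z).toMonoidHom, r * x = x * r := by
    intro r hr
    rw [mem_map_conj] at hr
    have h1 := hS1.le (hyQ _ ((le_sup_left : Q ≤ Q ⊔ P') hr))
    have h2 : r = y'⁻¹ * ((c1 * k1) * (z⁻¹ * r * z) * (c1 * k1)⁻¹) * y' := by rw [hz]; group
    have h3 : r ∈ C := by
      rw [h2]
      exact C.mul_mem (C.mul_mem (C.inv_mem hy'C) h1) hy'C
    rw [hC, mem_cs] at h3
    exact h3
  have htP' : t ∈ P' := Subgroup.mem_inf.2 ⟨ht, mem_cs.2 rfl⟩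
  refine eq_one_of_conj hR hRx (fun d hd => ?_) ?_ (c := c) ?_ hcx
  · have h1 := (Subgroup.mem_inf.1 hd).2
    rw [Subgroup.mem_centralizer_iff] at h1
    exact (h1 t htP').symm
  · exact hT.pgroup.to_le (by rw [Subgroup.zpowers_le]; exact ht)
  · refine Subgroup.mem_inf.2 ⟨hcG1, ?_⟩
    rw [Subgroup.mem_centralizer_iff]
    intro v hv
    have := hcP v hv
    rw [mul_inv_eq_iff_eq_mul] at this
    exact this.symm

end Pool.Agent.U685.CE
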