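import Mathlib
import Pool.Agent.U685.CE.Main

set_option autoImplicit false
set_option linter.unusedSectionVars false

/-!
# Isolated elements lie in the centralizer of the normal subsystem
-/

namespace Pool.Agent.U685.CE

variable {G : Type} [Group G] [Finite G] {p : ℕ} [Fact p.Prime]

/-- `T ⊔ ⟨x⟩` is a Sylow `p`-subgroup of `H ⊔ ⟨x⟩`, and it meets `H` in `T`. -/
lemma isSyl_sup {H T : Subgroup G} [hH : H.Normal] (hT : IsSyl p H T) {x : G}
    (hxT : ∀ t ∈ T, t * x = x * t) (hxp : IsPGroup p (Subgroup.zpowers x)) :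
    IsSyl p (Subgroup.zpowers x ⊔ H) (Subgroup.zpowers x ⊔ T) ∧
      (Subgroup.zpowers x ⊔ T) ⊓ H = T := by
  have hxn : Subgroup.zpowers x ≤ Subgroup.normalizer (T : Set G) := by
    rw [Subgroup.zpowers_le, Subgroup.mem_normalizer_iff]
    intro t
    constructor
    · intro ht
      have h1 := hxT t ht
      have h2 : x * t * x⁻¹ = t := by rw [← h1]; group
      rw [h2]; exact ht
    · intro ht
      have h1 := hxT _ ht
      have h2 : x * t * x⁻¹ = t := by
        have h4 : x * t = x * (x * t * x⁻¹) := by rw [← h1]; group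
        exact (mul_left_cancel h4).symm
      rw [h2] at ht
      exact ht
  have hp : IsPGroup p (Subgroup.zpowers x ⊔ T : Subgroup G) :=
    hxp.to_sup_of_normal_right' hT.pgroup hxn
  have hinf : (Subgroup.zpowers x ⊔ T) ⊓ H = T := by
    have h1 : T ≤ (Subgroup.zpowers x ⊔ T) ⊓ H := le_inf le_sup_right hT.le
    have h2 := hT.card_le (Q := (Subgroup.zpowers x ⊔ T) ⊓ H) inf_le_right (hp.to_le inf_le_left)
    exact (Subgroup.eq_of_le_of_card_ge h1 h2).symm
  refine ⟨⟨sup_le_sup_left hT.le _, hp, ?_⟩, hinf⟩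
  have h3 : (Subgroup.zpowers x ⊔ T) ⊔ H = Subgroup.zpowers x ⊔ H := by
    rw [sup_assoc, sup_eq_right.2 hT.le]
  rw [← h3, relIndex_sup_eq, ← Subgroup.inf_relIndex_right, hinf]
  exact hT.index

/-- **Converse.** If `x` is the only element of its `H`-class in `T ⊔ ⟨x⟩`, then all `H`-conjugations
between subgroups of `T` are induced by elements commuting with `x`. -/
theorem ext_of_isolated {H T : Subgroup G} [hH : H.Normal] (hT : IsSyl p H T) {x : G}
    (hxT : ∀ t ∈ T, t * x = x * t) (hxp : IsPGroup p (Subgroup.zpowers x))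
    (hiso : ∀ h ∈ H, h * x * h⁻¹ ∈ Subgroup.zpowers x ⊔ T → h * x * h⁻¹ = x)
    {P : Subgroup G} {h : G} (hP : P ≤ T) (hh : h ∈ H) (hPh : ∀ y ∈ P, h * y * h⁻¹ ∈ T) :
    ∃ g : G, (∀ y ∈ P, g * y * g⁻¹ = h * y * h⁻¹) ∧ g * x * g⁻¹ = x := by
  obtain ⟨hL, hinf⟩ := isSyl_sup hT hxT hxp
  set L := Subgroup.zpowers x ⊔ H with hLdef
  set T1 := Subgroup.zpowers x ⊔ T with hT1
  have hxL : x ∈ L := (le_sup_left : _ ≤ L) (Subgroup.mem_zpowers x)
  have hHL : H ≤ L := le_sup_right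
  have hiso' : ∀ w ∈ L, w * x * w⁻¹ ∈ T1 → w * x * w⁻¹ = x := by
    intro w hw hwx
    rw [hLdef, sup_comm] at hw
    obtain ⟨k, hk, z, hz, rfl⟩ := Subgroup.mem_sup_of_normal_left.1 hw
    obtain ⟨i, rfl⟩ := hz
    have h1 : k * x ^ i * x * (k * x ^ i)⁻¹ = k * x * k⁻¹ := by
      rw [mul_inv_rev, mul_assoc k, ← zpow_add_one, add_comm, zpow_one_add]
      group
    simp only at hwx ⊢
    rw [h1] at hwx ⊢
    exact hiso k hk hwx
  set P2 := P.map (MulAut.conj h).toMonoidHom with hP2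
  have hP2T : P2 ≤ T := by
    rintro _ ⟨y, hy, rfl⟩
    simpa using hPh y hy
  set K := L ⊓ Subgroup.centralizer (P2 : Set G) with hK
  have hxK : x ∈ K := by
    refine Subgroup.mem_inf.2 ⟨hxL, ?_⟩
    rw [Subgroup.mem_centralizer_iff]
    intro v hv
    exact hxT v (hP2T hv)
  have hhxK : h * x * h⁻¹ ∈ K := by
    refine Subgroup.mem_inf.2 ⟨L.mul_mem (L.mul_mem (hHL hh) hxL) (L.inv_mem (hHL hh)), ?_⟩
    rw [Subgroup.mem_centralizer_iff]
    rintro _ ⟨y, hy, rfl⟩
    have h1 := hxT y (hP hy)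
    change h * y * h⁻¹ * (h * x * h⁻¹) = h * x * h⁻¹ * (h * y * h⁻¹)
    calc h * y * h⁻¹ * (h * x * h⁻¹) = h * (y * x) * h⁻¹ := by group
      _ = h * (x * y) * h⁻¹ := by rw [h1]
      _ = _ := by group
  obtain ⟨R, hxR, hR⟩ := IsSyl.exists_ge (p := p) (K := K) (Q := Subgroup.zpowers x)
    (by rw [Subgroup.zpowers_le]; exact hxK) hxp
  have hRP : IsPGroup p (R ⊔ P2 : Subgroup G) := by
    apply hR.pgroup.to_sup_of_normal_right' (hT.pgroup.to_le hP2T)
    intro q hq
    have h1 := (Subgroup.mem_inf.1 (hR.le hq)).2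
    rw [Subgroup.mem_centralizer_iff] at h1
    rw [Subgroup.mem_normalizer_iff]
    intro v
    constructor
    · intro hv
      have h2 := h1 v hv
      have h3 : q * v * q⁻¹ = v := by rw [← h2]; group
      rw [h3]; exact hv
    · intro hv
      have h2 := h1 _ hv
      have h3 : q * v * q⁻¹ = v := by
        have h4 : q * v = q * (q * v * q⁻¹) := by rw [← h2]; group
        exact (mul_left_cancel h4).symm
      rw [h3] at hv
      exact hv
  obtain ⟨w, hw, hwR⟩ := hL.conj (sup_le (hR.le.trans inf_le_left)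
    (hP2T.trans (hT.le.trans hHL))) hRP
  have hRL : ∀ r ∈ R, w * r * w⁻¹ ∈ T1 := fun r hr => hwR r ((le_sup_left : R ≤ R ⊔ P2) hr)
  have hwx : w * x * w⁻¹ = x := hiso' w hw (hRL x (hxR (Subgroup.mem_zpowers x)))
  have hp' : IsPGroup p (Subgroup.zpowers (h * x * h⁻¹)) := by
    have h1 : Subgroup.zpowers (h * x * h⁻¹) =
        (Subgroup.zpowers x).map (MulAut.conj h).toMonoidHom := by
      rw [MonoidHom.map_zpowers]
      rfl
    rw [h1]
    exact hxp.map _
  obtain ⟨k, hk, hkR⟩ := hR.conj (Q := Subgroup.zpowers (h * x * h⁻¹))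
    (by rw [Subgroup.zpowers_le]; exact hhxK) hp'
  have h1 := hkR _ (Subgroup.mem_zpowers _)
  have h2 := hRL _ h1
  have h3 : w * (k * (h * x * h⁻¹) * k⁻¹) * w⁻¹ = (w * k * h) * x * (w * k * h)⁻¹ := by group
  rw [h3] at h2
  have h4 := hiso' (w * k * h) (L.mul_mem (L.mul_mem hw (Subgroup.mem_inf.1 hk).1) (hHL hh)) h2
  refine ⟨k * h, ?_, ?_⟩
  · intro y hy
    have h5 := (Subgroup.mem_inf.1 hk).2
    rw [Subgroup.mem_centralizer_iff] at h5
    have h6 := h5 (h * y * h⁻¹) ⟨y, hy, rfl⟩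
    calc k * h * y * (k * h)⁻¹ = (k * (h * y * h⁻¹)) * k⁻¹ := by group
      _ = h * y * h⁻¹ := by rw [← h6]; group
  · calc k * h * x * (k * h)⁻¹ = w⁻¹ * ((w * k * h) * x * (w * k * h)⁻¹) * w := by group
      _ = w⁻¹ * x * w := by rw [h4]
      _ = w⁻¹ * (w * x * w⁻¹) * w := by rw [hwx]
      _ = x := by group

end Pool.Agent.U685.CE
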